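import Pool.Agent.Lib.MP_dfd018_pr.QuadMain

namespace Pool.Agent.Results.MP_dfd018_pr.QuadraticWitness

open Pool.Agent.Lib.MP_dfd018_pr

/-- With probability tending to one, the witness matrix built from `Z = -(0.56 / √n) A ^ 2`
has all its eigenvalues at most `1.45 √n`. -/
theorem result :
    Filter.Tendsto (fun n : ℕ => (Nat.card {G : SimpleGraph (Fin n) //
      ∀ μ ∈ spectrum ℝ (witness (pmAdj G) ((-(14 / 25 / √(n : ℝ))) • (pmAdj G * pmAdj G))),
        μ ≤ 145 / 100 * √(n : ℝ)} : ℝ) / (Nat.card (SimpleGraph (Fin n)) : ℝ))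
      Filter.atTop (nhds 1) :=
  quad_main

end Pool.Agent.Results.MP_dfd018_pr.QuadraticWitness
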