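import Pool.Agent.Lib.MP_dfd018_pr.Final

namespace Pool.Agent.Results.MP_dfd018_pr.SpectralWitness

open Pool.Agent.Lib.MP_dfd018_pr Matrix

/-- With probability tending to one, for every decreasing list `lam` of eigenvalues of the
plus-minus one adjacency matrix with an orthonormal eigenbasis `v`, the witness matrix built from
`Z = ∑ α i • v i (v i)ᵀ` (with `α i = -lam i` on the first half of the indices and `α i = lam i`
on the others) has all its eigenvalues at most `1.55 √n`. -/
theorem result :
    Filter.Tendsto (fun n : ℕ => (Nat.card {G : SimpleGraph (Fin n) //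
      ∀ (lam : Fin n → ℝ) (v : Fin n → Fin n → ℝ), Antitone lam →
        (∀ i j, v i ⬝ᵥ v j = if i = j then 1 else 0) → (∀ i, pmAdj G *ᵥ v i = lam i • v i) →
        ∀ μ ∈ spectrum ℝ (witness (pmAdj G)
          (∑ i, (if i.val < n / 2 then -lam i else lam i) • vecMulVec (v i) (v i))),
          μ ≤ 155 / 100 * √(n : ℝ)} : ℝ) / (Nat.card (SimpleGraph (Fin n)) : ℝ))
      Filter.atTop (nhds 1) :=
  final_main

end Pool.Agent.Results.MP_dfd018_pr.SpectralWitness
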